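import Mathlib
import Pool.Agent.Lib.MP_cea741_ag.Nod.Main
import Pool.Agent.Lib.MP_cea741_ag.Nod.Square
import Pool.Agent.Lib.MP_cea741_ag.Sections

namespace Pool.Agent.Results.MP_cea741_ag.GeneralCollision

open MvPolynomial

/-- `I = (y, x^r)^m ⊆ k[x,y]`, `x = X 0`, `y = X 1`; `Z = Spec k[x,y]/I`. -/
noncomputable def idealZ (k : Type*) [Field k] (r m : ℕ) : Ideal (MvPolynomial (Fin 2) k) :=
  Ideal.span {X 1, X 0 ^ r} ^ m

/-- `J` is the ideal of a closed subscheme `Y` of the affine plane `x_2 = 1` (a chart of `P²`)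
that is isomorphic to `Z`. -/
def IsoZ {k : Type*} [Field k] (r m : ℕ) (J : Ideal (MvPolynomial (Fin 2) k)) : Prop :=
  Nonempty ((MvPolynomial (Fin 2) k ⧸ J) ≃ₐ[k] (MvPolynomial (Fin 2) k ⧸ idealZ k r m))

/-- The ideal `(y - ∑_{i<r} c_i (x-a)^i, (x-a)^r)` of the curvilinear scheme of length `r` supported
at the point `(a, c_0)` on the smooth arc `y = ∑_{i<r} c_i (x-a)^i`. -/
noncomputable def arcIdeal {k : Type*} [Field k] {r : ℕ} (a : k) (c : Fin r → k) :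
    Ideal (MvPolynomial (Fin 2) k) :=
  Ideal.span {X 1 - ∑ i, C (c i) * (X 0 - C a) ^ (i : ℕ), (X 0 - C a) ^ r}

/-- The automorphism of the plane which exchanges `x` and `y`. -/
noncomputable def swap (k : Type*) [Field k] :
    MvPolynomial (Fin 2) k →ₐ[k] MvPolynomial (Fin 2) k := aeval ![X 1, X 0]

/-- Restriction of polynomials in `x_0, x_1, x_2` to the chart `x_2 = 1`. -/
noncomputable def dehom (k : Type*) [Field k] :
    MvPolynomial (Fin 3) k →ₐ[k] MvPolynomial (Fin 2) k := aeval ![X 0, X 1, 1]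

/-- `H⁰(P², I_Y ⊗ O(d))` for the subscheme `Y` of the chart `x_2 = 1` with ideal `J`: the forms of
degree `d` in `x_0, x_1, x_2` whose restriction to the chart lies in `J`. -/
noncomputable def H0 {k : Type*} [Field k] (J : Ideal (MvPolynomial (Fin 2) k)) (d : ℕ) :
    Submodule k (MvPolynomial (Fin 3) k) :=
  homogeneousSubmodule (Fin 3) k d ⊓ (J.restrictScalars k).comap (dehom k).toLinearMap

/-- The vanishing for general arcs, `d² ≤ m² r`. -/
theorem vanishing (k : Type*) [Field k] (r m : ℕ) (hr : 9 < r) (hm : 1 ≤ m) (d : ℕ)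
    (hd : d ^ 2 ≤ m ^ 2 * r) :
    ∃ Φ : MvPolynomial (Fin r) k, Φ ≠ 0 ∧ ∀ (a : k) (c : Fin r → k), eval c Φ ≠ 0 →
      ∀ F : MvPolynomial (Fin 2) k, F.totalDegree ≤ d → F ∈ arcIdeal a c ^ m → F = 0 := by
  rcases hd.lt_or_eq with h | h
  · exact _root_.MP_cea741_ag.Nod.main k r m d hr hm h
  · refine _root_.MP_cea741_ag.Nod.square k r m d hr hm ?_
    -- `r` is a perfect square
    have hmd : m ∣ d := (Nat.pow_dvd_pow_iff (two_ne_zero)).1 ⟨r, h⟩
    obtain ⟨s, rfl⟩ := hmd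
    have hs : s ^ 2 = r := by
      have h1 : m ^ 2 * s ^ 2 = m ^ 2 * r := by rw [← h]; ring
      exact Nat.eq_of_mul_eq_mul_left (by positivity) h1
    rw [← hs, Nat.sqrt_eq']

/-- **Q1 is true.** Let `k` be a field, `r > 9`, `m ≥ 1` and `d ≤ m √r`.
(a) The closed subschemes `Y` of the affine plane isomorphic to `Z = Spec k[x,y]/(y,x^r)^m` are
exactly those with ideal `(y - ∑ c_i (x-a)^i, (x-a)^r)^m`, `(a, c) ∈ k^(r+1)`, and those obtained
from these by exchanging `x` and `y`.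
(b) There is a nonzero polynomial `Φ` in the coefficients `c` such that `H⁰(P², I_Y(d)) = 0` for
both subschemes `Y` belonging to `(a, c)` whenever `Φ(c) ≠ 0`, i.e. for general `Y`. -/
theorem result (k : Type*) [Field k] (r m : ℕ) (hr : 9 < r) (hm : 1 ≤ m) (d : ℕ)
    (hd : (d : ℝ) ≤ m * √(r : ℝ)) :
    (∀ J : Ideal (MvPolynomial (Fin 2) k), IsoZ r m J ↔
      ∃ (a : k) (c : Fin r → k), J = arcIdeal a c ^ m ∨ J = (arcIdeal a c ^ m).map (swap k)) ∧
    ∃ Φ : MvPolynomial (Fin r) k, Φ ≠ 0 ∧ ∀ (a : k) (c : Fin r → k), eval c Φ ≠ 0 →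
      H0 (arcIdeal a c ^ m) d = ⊥ ∧ H0 ((arcIdeal a c ^ m).map (swap k)) d = ⊥ := by
  have hd' : d ^ 2 ≤ m ^ 2 * r := by
    have h1 : (d : ℝ) ^ 2 ≤ (m * √(r : ℝ)) ^ 2 := pow_le_pow_left₀ (by positivity) hd 2
    rw [mul_pow, Real.sq_sqrt (by positivity)] at h1
    exact_mod_cast h1
  refine ⟨fun J => _root_.MP_cea741_ag.Sec.classification k r m (by omega) hm J, ?_⟩
  obtain ⟨Φ, hΦ, h⟩ := vanishing k r m hr hm d hd'
  refine ⟨Φ, hΦ, fun a c hc => ⟨?_, ?_⟩⟩
  · exact _root_.MP_cea741_ag.Sec.H0_eq_bot _ d (h a c hc)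
  · exact _root_.MP_cea741_ag.Sec.H0_swap_eq_bot _ d (h a c hc)

end Pool.Agent.Results.MP_cea741_ag.GeneralCollision
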