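import Mathlib
import Pool.Agent.Lib.MP_cea741_ag.HSq
import Pool.Agent.Lib.MP_cea741_ag.HForms

namespace Pool.Agent.Results.MP_cea741_ag.HilbertSquares

open _root_.MP_cea741_ag _root_.MP_cea741_ag.Hil

noncomputable section

section aux

open Polynomial

variable {K : Type*} [Field K]

theorem PP_eq_sum {d : ℕ} (v : Idx d → K) :
    PP v = ∑ p, C (C (v p)) * PP (Pi.single p (1 : K) : Idx d → K) := by
  classical
  have h1 : ∀ p : Idx d, PP (Pi.single p (1 : K) : Idx d → K)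
      = C ((X - 1) ^ (p.1.1 : ℕ)) * X ^ (p.1.2 : ℕ) := by
    intro p
    rw [PP, Finset.sum_eq_single p]
    · simp
    · intro b _ hb
      simp [Pi.single_eq_of_ne hb]
    · simp
  rw [PP]
  refine Finset.sum_congr rfl fun p _ => ?_
  rw [h1, C_mul, mul_assoc]

/-- the linear functionals -/
def fun1 (s d : ℕ) (q : K) (h t : ℕ) (p : Idx d) : K :=
  ((Gh s (Pi.single p (1 : K) : Idx d → K) h).comp (X + C q)).coeff t

theorem fun1_sum (s d : ℕ) (q : K) (h t : ℕ) (v : Idx d → K) :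
    ∑ p, fun1 s d q h t p * v p = ((Gh s v h).comp (X + C q)).coeff t := by
  have h1 : Gh s v h = ∑ p, C (v p) * Gh s (Pi.single p (1 : K) : Idx d → K) h := by
    rw [Gh, PP_eq_sum, Polynomial.sum_comp, finsetSum_coeff]
    refine Finset.sum_congr rfl fun p _ => ?_
    rw [mul_comp, C_comp, coeff_C_mul]
    rfl
  rw [h1, Polynomial.sum_comp, finsetSum_coeff]
  refine Finset.sum_congr rfl fun p _ => ?_
  rw [mul_comp, C_comp, coeff_C_mul, mul_comm]
  rfl

theorem sol_A (k : Type*) [Field k] [CharZero k] (s m d : ℕ) (hs : 2 ≤ s) :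
    ∃ Φ : MvPolynomial (Fin (s ^ 2)) k, Φ ≠ 0 ∧ ∀ c : Fin (s ^ 2) → k,
      MvPolynomial.eval c Φ ≠ 0 →
      Module.finrank k (Sol k (s ^ 2) m d c) ≤ nA s (s ^ 2) m d := by
  obtain ⟨Φ, hΦ, h⟩ := transfer k (A := k) (s ^ 2) m d
    (fun l : Fin (s ^ 2) => PowerSeries.coeff (l : ℕ) ((1 + PowerSeries.X : PowerSeries k) ^ s))
    (T := Σ h : Fin (d / s + 1), Fin ((Eset s (d - h * s)).card - s ^ 2 * (m - h)))
    (fun t => fun1 s d 1 t.1 (s ^ 2 * (m - t.1) + t.2)) (by
      intro v hv hL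
      refine case_A s (s ^ 2) m hs v hv fun h hh τ hτ => ?_
      have h1 := hL ⟨⟨h, by omega⟩, ⟨τ, hτ⟩⟩
      simp only [Algebra.algebraMap_self, RingHom.id_apply] at h1
      rw [fun1_sum] at h1
      exact h1)
  refine ⟨Φ, hΦ, fun c hc => (h c hc).trans (le_of_eq ?_)⟩
  rw [Fintype.card_sigma, nA]
  simp only [Fintype.card_fin]
  rw [Fin.sum_univ_eq_sum_range (fun h => (Eset s (d - h * s)).card - s ^ 2 * (m - h)) (d / s + 1)]

theorem sol_B (k : Type*) [Field k] [CharZero k] (s m i ν : ℕ) (hs : 2 ≤ s) (hν1 : 1 ≤ ν)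
    (hν : 2 * ν + 2 * s * i + 3 * s = s * s) :
    ∃ Φ : MvPolynomial (Fin (s ^ 2)) k, Φ ≠ 0 ∧ ∀ c : Fin (s ^ 2) → k,
      MvPolynomial.eval c Φ ≠ 0 →
      Module.finrank k (Sol k (s ^ 2) m (m * s + i) c) ≤ (i + 2).choose 2 - ν * m := by
  obtain ⟨q, hq⟩ := exists_genQ k s (s ^ 2) m (m * s + i) ν m
  obtain ⟨Φ, hΦ, h⟩ := transfer k (A := k[X]) (s ^ 2) m (m * s + i)
    (cfamN q s ν (s ^ 2)) (T := Fin ((i + 2).choose 2 - ν * m))
    (fun t => fun1 s (m * s + i) q m (ν * m + t)) (by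
      intro v hv hL
      refine case_B s m i ν hs hν1 hν q hq v hv fun l τ hτ => ?_
      have h1 := congrArg (fun P => P.coeff l) (hL ⟨τ, hτ⟩)
      simp only [coeff_zero, finsetSum_coeff] at h1
      rw [← fun1_sum, ← h1]
      refine Finset.sum_congr rfl fun p _ => ?_
      rw [← C_eq_algebraMap, coeff_C_mul])
  refine ⟨Φ, hΦ, fun c hc => (h c hc).trans (le_of_eq ?_)⟩
  rw [Fintype.card_fin]

end aux

open MvPolynomial in
/-- **Hilbert function of the general collision for a square number `r = s²`.** Let `k` be a field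
of characteristic zero, `s ≥ 2`, `r = s²`. For all `m, d` there is a nonzero polynomial `Φ` in the
coefficients `c_0, …, c_{r-1}` such that for all `a` and all `c` with `Φ(c) ≠ 0` the space of
polynomials of degree `≤ d` in `(y - ∑ c_i (x-a)^i, (x-a)^r)^m` has dimension
`max(0, C(d+2,2) - r C(m+1,2))`. -/
theorem result (k : Type*) [Field k] [CharZero k] (s m d : ℕ) (hs : 2 ≤ s) :
    ∃ Φ : MvPolynomial (Fin (s ^ 2)) k, Φ ≠ 0 ∧
      ∀ (a : k) (c : Fin (s ^ 2) → k), eval c Φ ≠ 0 →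
        Module.finrank k (restrictTotalDegree (Fin 2) k d ⊓
          (Arc.arcIdeal a c ^ m).restrictScalars k : Submodule k (MvPolynomial (Fin 2) k)) =
        (d + 2).choose 2 - s ^ 2 * (m + 1).choose 2 := by
  have key : ∃ Φ : MvPolynomial (Fin (s ^ 2)) k, Φ ≠ 0 ∧ ∀ c : Fin (s ^ 2) → k,
      eval c Φ ≠ 0 → Module.finrank k (Sol k (s ^ 2) m d c) ≤
        (d + 2).choose 2 - s ^ 2 * (m + 1).choose 2 := by
    by_cases h1 : d < m * s
    · obtain ⟨Φ, hΦ, h⟩ := sol_A k s m d hs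
      refine ⟨Φ, hΦ, fun c hc => (h c hc).trans ?_⟩
      rw [nA_small s m d (by omega) h1]
      exact Nat.zero_le _
    · by_cases h2 : s ≤ 2 * (d - m * s) + 3
      · obtain ⟨Φ, hΦ, h⟩ := sol_A k s m d hs
        exact ⟨Φ, hΦ, fun c hc => (h c hc).trans
          (nA_large s m d (by omega) (by omega) h2)⟩
      · obtain ⟨i, rfl⟩ : ∃ i, d = m * s + i := ⟨d - m * s, by omega⟩
        rw [Nat.add_sub_cancel_left] at h2
        obtain ⟨u, rfl⟩ : ∃ u, s = 2 * i + 3 + (u + 1) := ⟨s - (2 * i + 3) - 1, by omega⟩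
        have hev : Even ((2 * i + 3 + (u + 1)) * (u + 1)) := by
          rcases Nat.even_or_odd u with hu | hu
          · have h3 : Even (2 * i + 3 + (u + 1)) := by
              obtain ⟨t, ht⟩ := hu
              exact ⟨i + 2 + t, by omega⟩
            exact h3.mul_right _
          · have h3 : Even (u + 1) := by
              obtain ⟨t, ht⟩ := hu
              exact ⟨t + 1, by omega⟩
            exact h3.mul_left _
        obtain ⟨ν, hν⟩ := hev
        have hν1 : 1 ≤ ν := by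
          by_contra h0
          have : ν = 0 := by omega
          subst this
          have : 0 < (2 * i + 3 + (u + 1)) * (u + 1) := by positivity
          omega
        have hν2 : 2 * ν + 2 * (2 * i + 3 + (u + 1)) * i + 3 * (2 * i + 3 + (u + 1)) =
            (2 * i + 3 + (u + 1)) * (2 * i + 3 + (u + 1)) := by
          have : 2 * ν = (2 * i + 3 + (u + 1)) * (u + 1) := by omega
          rw [this]; ring
        obtain ⟨Φ, hΦ, h⟩ := sol_B k (2 * i + 3 + (u + 1)) m i ν hs hν1 hν2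
        exact ⟨Φ, hΦ, fun c hc => (h c hc).trans (nB_le _ m i ν hν2)⟩
  obtain ⟨Φ, hΦ, h⟩ := key
  refine ⟨Φ, hΦ, fun a c hc => ?_⟩
  have h1 := finrank_forms m d a c
  rw [forms] at h1
  rw [h1]
  exact le_antisymm (h c hc) (finrank_Sol_ge k (s ^ 2) m d c)

end

end Pool.Agent.Results.MP_cea741_ag.HilbertSquares
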